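import Mathlib

-- part MP_9a42a6_lc.Fodor
section

/-!
Diagonal intersections of clubs and Fodor's pressing down lemma, for a well-order all of whose
proper initial segments are smaller than its (uncountable) cofinality.
-/

set_option autoImplicit false

open Cardinal Order Set

universe u

namespace Pool.Agent.MP_9a42a6_lc

variable {J : Type u} [LinearOrder J] [WellFoundedLT J]

attribute [local instance]
  WellFoundedLT.toOrderBot WellFoundedLT.conditionallyCompleteLinearOrderBot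

theorem bddAbove_range_nat (hJ : ℵ₀ < cof J) (g : ℕ → J) : BddAbove (range g) := by
  refine .of_not_isCofinal fun hg ↦ (cof_le hg).not_gt (hJ.trans_le' ?_)
  simpa using mk_range_le_lift (f := g)

theorem nonempty_of_cof (hJ : ℵ₀ < cof J) : Nonempty J := by
  rw [← cof_ne_zero_iff]
  exact (aleph0_pos.trans hJ).ne'

theorem noMax_of_cof (hJ : ℵ₀ < cof J) : NoMaxOrder J := by
  have := nonempty_of_cof hJ
  rw [← noTopOrder_iff_noMaxOrder, ← one_lt_cof_iff]
  exact one_lt_aleph0.trans hJ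

/-- The supremum of a monotone sequence whose tail lies in a club lies in the club. -/
theorem exists_lub_seq (hJ : ℵ₀ < cof J) (a : ℕ → J) (ha : Monotone a) :
    ∃ b : J, (∀ n, a n ≤ b) ∧ (∀ ξ < b, ∃ n, ξ < a n) ∧
      ∀ C : Set J, IsClub C → (∃ m, ∀ n, m ≤ n → a n ∈ C) → b ∈ C := by
  have := nonempty_of_cof hJ
  have hb := bddAbove_range_nat hJ a
  have hl : IsLUB (range a) (sSup (range a)) := isLUB_csSup (range_nonempty a) hb
  refine ⟨sSup (range a), fun n => hl.1 ⟨n, rfl⟩, fun ξ hξ => ?_, ?_⟩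
  · obtain ⟨_, ⟨n, rfl⟩, hn⟩ := (lt_isLUB_iff hl).1 hξ
    exact ⟨n, hn⟩
  · rintro C hC ⟨m, hm⟩
    refine hC.isLUB_mem (t := range fun n => a (m + n)) ?_ (range_nonempty _) ⟨?_, ?_⟩
    · rintro _ ⟨n, rfl⟩
      exact hm _ (Nat.le_add_right m n)
    · rintro _ ⟨n, rfl⟩
      exact hl.1 ⟨_, rfl⟩
    · intro b hb'
      refine hl.2 ?_
      rintro _ ⟨n, rfl⟩
      exact (ha (Nat.le_add_left n m)).trans (hb' ⟨n, rfl⟩)

theorem isClub_diag (hJ : ℵ₀ < cof J) (hI : ∀ b : J, #(Iio b) < cof J)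
    (C : J → Set J) (hC : ∀ γ, IsClub (C γ)) : IsClub {β | ∀ γ < β, β ∈ C γ} := by
  constructor
  · intro s hs hs₀ _ a ha γ hγ
    obtain ⟨b, hb, hγb⟩ := (lt_isLUB_iff ha).1 hγ
    refine (hC γ).isLUB_mem (t := s ∩ Ici b) ?_ ⟨b, hb, le_rfl⟩ ⟨?_, ?_⟩
    · intro x hx
      exact hs hx.1 γ (hγb.trans_le hx.2)
    · intro x hx
      exact ha.1 hx.1
    · intro c hc
      refine ha.2 fun x hx => ?_
      rcases le_total b x with h | h
      · exact hc ⟨hx, h⟩
      · exact h.trans (hc ⟨hb, le_rfl⟩)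
  · intro a
    have key : ∀ b : J, ∃ c, b ≤ c ∧ ∀ γ < b, c ∈ C γ := by
      intro b
      have h1 : IsClub (⋂ γ : Iio b, C γ) :=
        IsClub.iInter hJ.ne' (by simpa using hI b) fun γ => hC γ
      obtain ⟨c, hc, hbc⟩ := h1.isCofinal b
      exact ⟨c, hbc, fun γ hγ => mem_iInter.1 hc ⟨γ, hγ⟩⟩
    choose g hg1 hg2 using key
    let s : ℕ → J := fun n => g^[n] a
    have hs : ∀ n, s (n + 1) = g (s n) := fun n => Function.iterate_succ_apply' g n a
    have hmono : Monotone s := monotone_nat_of_le_succ fun n => by rw [hs]; exact hg1 _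
    obtain ⟨b, hb1, hb2, hb3⟩ := exists_lub_seq hJ s hmono
    refine ⟨b, fun γ hγ => ?_, hb1 0⟩
    obtain ⟨n, hn⟩ := hb2 γ hγ
    refine hb3 _ (hC γ) ⟨n + 1, fun m hm => ?_⟩
    obtain ⟨k, rfl⟩ : ∃ k, m = k + 1 := ⟨m - 1, by omega⟩
    rw [hs]
    exact hg2 _ _ (hn.trans_le (hmono (by omega)))

/-- Fodor's lemma. -/
theorem fodor (hJ : ℵ₀ < cof J) (hI : ∀ b : J, #(Iio b) < cof J)
    {S : Set J} (hS : IsStationary S) (f : J → J) (hf : ∀ β ∈ S, f β < β) :
    ∃ γ, IsStationary {β ∈ S | f β = γ} := by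
  by_contra h
  push Not at h
  simp_rw [not_isStationary_iff] at h
  choose C hC hd using h
  obtain ⟨β, hβS, hβ⟩ := hS (isClub_diag hJ hI C hC)
  exact Set.disjoint_left.1 (hd (f β)) ⟨hβS, rfl⟩ (hβ _ (hf β hβS))

omit [WellFoundedLT J] in
theorem isClub_Ici (a : J) : IsClub (Ici a) := by
  constructor
  · intro s hs hs₀ _ b hb
    obtain ⟨x, hx⟩ := hs₀
    exact le_trans (hs hx) (hb.1 hx)
  · intro b
    exact ⟨max a b, le_max_left _ _, le_max_right _ _⟩

theorem isStationary_inter_club (hJ : ℵ₀ < cof J) {S C : Set J} (hS : IsStationary S)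
    (hC : IsClub C) : IsStationary (S ∩ C) := by
  intro D hD
  rw [inter_assoc]
  exact hS (hC.inter hJ.ne' hD)

omit [WellFoundedLT J] in
theorem cof_le_mk_of_isStationary {S : Set J} (hS : IsStationary S) : cof J ≤ #S := by
  refine cof_le fun a => ?_
  obtain ⟨b, hb, hab⟩ := hS (isClub_Ici a)
  exact ⟨b, hb, hab⟩

end Pool.Agent.MP_9a42a6_lc

end

-- part MP_9a42a6_lc.WeakDiamond
section

/-!
The Devlin-Shelah weak diamond argument, for a regular uncountable `J` such that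
`2 ^ (initial segments of J) ≤ 2 ^ M < 2 ^ J` for some infinite `M` smaller than `J`.
-/

set_option autoImplicit false

open Cardinal Order Set

universe u

namespace Pool.Agent.MP_9a42a6_lc

variable {J : Type u} [LinearOrder J] [WellFoundedLT J]

theorem two_pow_pow_le {m l : Cardinal.{u}} (hm : ℵ₀ ≤ m)
    (hl : (2 : Cardinal.{u}) ^ l ≤ 2 ^ m) : ((2 : Cardinal.{u}) ^ m) ^ l ≤ 2 ^ m := by
  rw [← power_mul]
  refine (power_le_power_left two_ne_zero (mul_le_max_of_aleph0_le_left hm)).trans ?_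
  rcases le_total m l with h | h
  · rwa [max_eq_right h]
  · rw [max_eq_left h]

omit [WellFoundedLT J] in
/-- Bounded restrictions of functions `J → W` can be coded by elements of `W`. -/
theorem exists_code {W : Type u} (hW : ℵ₀ ≤ #W) (hJW : #J ≤ #W)
    (h2 : ∀ b : J, #W ^ #(Iio b) ≤ #W) :
    ∃ code : J → (J → W) → W, ∀ β β' h h', code β h = code β' h' →
      β = β' ∧ ∀ ξ < β, h ξ = h' ξ := by
  have hcard : #(Σ β : J, (Iio β → W)) ≤ #W := by
    rw [mk_sigma]
    have h1 : ∀ β : J, #(Iio β → W) ≤ #W := by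
      intro β
      simpa using h2 β
    calc Cardinal.sum (fun β : J => #(Iio β → W))
        ≤ Cardinal.sum (fun _ : J => #W) := sum_le_sum _ _ h1
      _ = #J * #W := by simp
      _ ≤ #W * #W := by gcongr
      _ = #W := mul_eq_self hW
  obtain ⟨e⟩ := (Cardinal.le_def _ _).1 hcard
  refine ⟨fun β h => e ⟨β, fun ξ => h ξ⟩, fun β β' h h' hh => ?_⟩
  have h1 := e.injective hh
  obtain ⟨rfl, h3⟩ := Sigma.mk.inj_iff.1 h1
  refine ⟨rfl, fun ξ hξ => ?_⟩
  exact congrFun (eq_of_heq h3) ⟨ξ, hξ⟩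

/-- The next point of a club above `α`. -/
theorem exists_next (hJ : ℵ₀ < cof J) :
    ∃ nxt : Set J → J → J, ∀ C, IsClub C → ∀ α,
      nxt C α ∈ C ∧ α < nxt C α ∧ ∀ β ∈ C, α < β → nxt C α ≤ β := by
  have := noMax_of_cof hJ
  have key : ∀ (C : Set J) (α : J), ∃ b : J, IsClub C →
      b ∈ C ∧ α < b ∧ ∀ β ∈ C, α < β → b ≤ β := by
    intro C α
    by_cases hC : IsClub C
    · obtain ⟨a, ha⟩ := exists_gt α
      obtain ⟨b, hb, hab⟩ := hC.isCofinal a
      have hne : {β | β ∈ C ∧ α < β}.Nonempty := ⟨b, hb, ha.trans_le hab⟩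
      refine ⟨wellFounded_lt.min _ hne, fun _ => ?_⟩
      have hm := wellFounded_lt.min_mem _ hne
      exact ⟨hm.1, hm.2, fun β hβ hαβ =>
        wellFounded_lt.min_le (show β ∈ {β | β ∈ C ∧ α < β} from ⟨hβ, hαβ⟩)⟩
    · exact ⟨α, fun h => (hC h).elim⟩
  choose nxt hn using key
  exact ⟨nxt, fun C hC α => hn C α hC⟩

/-- The coding argument of Devlin and Shelah. -/
theorem devlin_shelah_core (hJ : ℵ₀ < cof J) {W : Type u}
    (code : J → (J → W) → W)
    (hcode : ∀ β β' h h', code β h = code β' h' → β = β' ∧ ∀ ξ < β, h ξ = h' ξ)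
    (p : W × W ↪ W) (q : (ℕ → W) ↪ W)
    (F : J → (J → W) → W)
    (hF : ∀ β f f', (∀ ξ < β, f ξ = f' ξ) → F β f = F β f')
    (hg : ∀ g : J → W, ∃ f : J → W, ∃ C, IsClub C ∧ ∀ β ∈ C, F β f = g β) :
    Nonempty ((J → W) ↪ W) := by
  have hne := nonempty_of_cof hJ
  obtain ⟨nxt, hnxt⟩ := exists_next hJ
  choose ff DD hDD hFD using hg
  -- one step of the construction
  let G : (J → W) × Set J → J → W := fun s α => code (nxt s.2 α) s.1
  let step : (J → W) × Set J → (J → W) × Set J := fun s =>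
    (fun ξ => p (s.1 ξ, ff (G s) ξ), s.2 ∩ DD (G s))
  let sq : (J → W) → ℕ → (J → W) × Set J := fun g n => step^[n] (g, univ)
  have hsq : ∀ g n, sq g (n + 1) = step (sq g n) := fun g n =>
    Function.iterate_succ_apply' step n _
  have hclub : ∀ g n, IsClub (sq g n).2 := by
    intro g n
    induction n with
    | zero => exact IsClub.univ
    | succ n ih => rw [hsq]; exact ih.inter hJ.ne' (hDD _)
  have hanti : ∀ g, Antitone fun n => (sq g n).2 := by
    intro g
    refine antitone_nat_of_succ_le fun n => ?_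
    rw [hsq]
    exact inter_subset_left
  have hdown : ∀ g g' ξ m n, m ≤ n → (sq g n).1 ξ = (sq g' n).1 ξ →
      (sq g m).1 ξ = (sq g' m).1 ξ := by
    intro g g' ξ m n hmn
    induction hmn with
    | refl => exact id
    | step _ ih =>
      intro h
      apply ih
      rw [hsq, hsq] at h
      exact (Prod.mk.inj (p.injective h)).1
  have hint : ∀ g, ∃ δ, ∀ n, δ ∈ (sq g n).2 := by
    intro g
    have := IsClub.iInter_of_countable hJ.ne' (hclub g)
    obtain ⟨δ, hδ⟩ := this.nonempty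
    exact ⟨δ, fun n => mem_iInter.1 hδ n⟩
  choose δ hδ using hint
  refine ⟨⟨fun g => code (δ g) fun ξ => q fun n => (sq g n).1 ξ, fun g g' hgg => ?_⟩⟩
  obtain ⟨h1, h2⟩ := hcode _ _ _ _ hgg
  let A : Set J := {a | (∀ n, a ∈ (sq g n).2) ∧ (∀ n, a ∈ (sq g' n).2) ∧
    ∀ n, ∀ ξ < a, (sq g n).1 ξ = (sq g' n).1 ξ}
  have hA0 : δ g ∈ A := by
    refine ⟨hδ g, h1 ▸ hδ g', fun n ξ hξ => ?_⟩
    exact congrFun (q.injective (h2 ξ hξ)) n
  have hAstep : ∀ a ∈ A, ∃ b ∈ A, a < b := by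
    rintro a ⟨ha1, ha2, ha3⟩
    have hG : ∀ n, G (sq g n) a = G (sq g' n) a := by
      intro n
      have e1 : a ∈ DD (G (sq g n)) := by
        have := ha1 (n + 1)
        rw [hsq] at this
        exact this.2
      have e2 : a ∈ DD (G (sq g' n)) := by
        have := ha2 (n + 1)
        rw [hsq] at this
        exact this.2
      rw [← hFD _ a e1, ← hFD _ a e2]
      refine hF _ _ _ fun ξ hξ => ?_
      have := ha3 (n + 1) ξ hξ
      rw [hsq, hsq] at this
      exact (Prod.mk.inj (p.injective this)).2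
    have hb : ∀ n, nxt (sq g n).2 a = nxt (sq g' n).2 a ∧
        ∀ ξ < nxt (sq g n).2 a, (sq g n).1 ξ = (sq g' n).1 ξ := fun n => hcode _ _ _ _ (hG n)
    let b : ℕ → J := fun n => nxt (sq g n).2 a
    have hbm : Monotone b := by
      intro m n hmn
      obtain ⟨i1, i2, -⟩ := hnxt _ (hclub g n) a
      exact (hnxt _ (hclub g m) a).2.2 _ (hanti g hmn i1) i2
    obtain ⟨c, hc1, hc2, hc3⟩ := exists_lub_seq hJ b hbm
    refine ⟨c, ⟨fun m => ?_, fun m => ?_, fun m ξ hξ => ?_⟩,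
      (hnxt _ (hclub g 0) a).2.1.trans_le (hc1 0)⟩
    · exact hc3 _ (hclub g m) ⟨m, fun n hmn => hanti g hmn (hnxt _ (hclub g n) a).1⟩
    · refine hc3 _ (hclub g' m) ⟨m, fun n hmn => hanti g' hmn ?_⟩
      have := (hnxt _ (hclub g' n) a).1
      rw [← (hb n).1] at this
      exact this
    · obtain ⟨n, hn⟩ := hc2 ξ hξ
      refine hdown g g' ξ m (max m n) (le_max_left _ _) ?_
      exact (hb _).2 ξ (hn.trans_le (hbm (le_max_right _ _)))
  have hAcof : ∀ x : J, ∃ a ∈ A, x < a := by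
    by_contra hcon
    push Not at hcon
    obtain ⟨x, hx⟩ := hcon
    have hub : (upperBounds A).Nonempty := ⟨x, hx⟩
    have hl : IsLUB A (wellFounded_lt.min _ hub) :=
      ⟨wellFounded_lt.min_mem _ hub, fun y hy => wellFounded_lt.min_le hy⟩
    have hmem : wellFounded_lt.min _ hub ∈ A := by
      refine ⟨fun n => (hclub g n).isLUB_mem (fun a ha => ha.1 n) ⟨_, hA0⟩ hl,
        fun n => (hclub g' n).isLUB_mem (fun a ha => ha.2.1 n) ⟨_, hA0⟩ hl, fun n ξ hξ => ?_⟩
      obtain ⟨a, ha, hξa⟩ := (lt_isLUB_iff hl).1 hξ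
      exact ha.2.2 n ξ hξa
    obtain ⟨b, hb, hlt⟩ := hAstep _ hmem
    exact (hl.1 hb).not_gt hlt
  funext ξ
  obtain ⟨a, ha, hξ⟩ := hAcof ξ
  exact ha.2.2 0 ξ hξ

/-- The weak diamond principle, with parameters in `V`. -/
theorem weak_diamond (hJ : ℵ₀ < cof J) {m : Cardinal.{u}} (hm : ℵ₀ ≤ m) (hmJ : m < cof J)
    (hJm : #J ≤ 2 ^ m) (h2 : ∀ b : J, (2 : Cardinal.{u}) ^ #(Iio b) ≤ 2 ^ m)
    (hlt : (2 : Cardinal.{u}) ^ m < 2 ^ #J)
    {V : Type u} (hV : #V ≤ 2 ^ m) [Nonempty V]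
    (F : J → (J → V) → Bool) (hF : ∀ β f f', (∀ ξ < β, f ξ = f' ξ) → F β f = F β f') :
    ∃ g : J → Bool, ∀ f : J → V, IsStationary {β | F β f ≠ g β} := by
  by_contra hcon
  push Not at hcon
  simp_rw [not_isStationary_iff] at hcon
  choose ff CC hCC hd using hcon
  let M : Type u := m.out
  have hM : #M = m := mk_out m
  let W : Type u := M → Bool
  have hW : #W = 2 ^ m := by simp [W, hM]
  have hWinf : ℵ₀ ≤ #W := by rw [hW]; exact hm.trans (cantor _).le
  obtain ⟨code, hcode⟩ := exists_code (J := J) hWinf (hW ▸ hJm)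
    (fun b => by rw [hW]; exact two_pow_pow_le hm (h2 b))
  obtain ⟨p⟩ : Nonempty (W × W ↪ W) := by
    rw [← Cardinal.le_def]
    simp only [mk_prod, lift_id]
    exact (mul_eq_self hWinf).le
  obtain ⟨q⟩ : Nonempty ((ℕ → W) ↪ W) := by
    rw [← Cardinal.le_def]
    have : #(ℕ → W) = #W ^ (ℵ₀ : Cardinal.{u}) := by simp
    rw [this, hW]
    exact two_pow_pow_le hm (power_le_power_left two_ne_zero hm)
  obtain ⟨e⟩ : Nonempty ((M → V) ↪ W) := by
    rw [← Cardinal.le_def]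
    have : #(M → V) = #V ^ m := by simp [hM]
    rw [this, hW]
    exact (power_le_power_right hV).trans (two_pow_pow_le hm le_rfl)
  let r : W → M → V := Function.invFun e
  have hr : ∀ v, r (e v) = v := Function.leftInverse_invFun e.injective
  let F' : J → (J → W) → W := fun β f i => F β fun ξ => r (f ξ) i
  have hF' : ∀ β f f', (∀ ξ < β, f ξ = f' ξ) → F' β f = F' β f' := by
    intro β f f' h
    funext i
    exact hF _ _ _ fun ξ hξ => by rw [h ξ hξ]
  have hg : ∀ g : J → W, ∃ f : J → W, ∃ C, IsClub C ∧ ∀ β ∈ C, F' β f = g β := by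
    intro g
    refine ⟨fun ξ => e fun i => ff (fun α => g α i) ξ, ⋂ i : M, CC fun α => g α i,
      IsClub.iInter hJ.ne' (by simpa [hM] using hmJ) fun i => hCC _, fun β hβ => ?_⟩
    funext i
    have h1 := mem_iInter.1 hβ i
    have h3 := Set.disjoint_right.1 (hd fun α => g α i) h1
    simp only [ne_eq, mem_ofPred_eq, not_not] at h3
    simp only [F', hr]
    exact h3
  obtain ⟨E⟩ := devlin_shelah_core hJ code hcode p q F' hF' hg
  have h1 : #(J → W) ≤ #W := mk_le_of_injective E.injective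
  have h3 : #(J → W) = #W ^ #J := by simp
  have h4 : (2 : Cardinal.{u}) ^ #J ≤ #W ^ #J :=
    power_le_power_right (natCast_le_aleph0.trans hWinf)
  rw [h3] at h1
  exact hlt.not_ge (hW ▸ h4.trans h1)

end Pool.Agent.MP_9a42a6_lc

end

-- part MP_9a42a6_lc.Main
section

/-!
An Erdos-Rado type canonical sequence of points, combined with the weak diamond and Fodor's lemma,
gives a large monochromatic set for an almost Delta-regressive colouring.
-/

set_option autoImplicit false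

open Cardinal Order Set

universe u

namespace Pool.Agent.MP_9a42a6_lc

section core

variable {J : Type u} [LinearOrder J] [WellFoundedLT J]

/-- The canonical point `y β` attached to `x`: it splits from `x` exactly at `β` and has the same
colours as `x` towards the earlier canonical points (junk if there is no such point). -/
noncomputable def canon (c : Sym2 (J → Bool) → J) (x : J → Bool) : J → (J → Bool) :=
  (wellFounded_lt (α := J)).fix fun β ih =>
    Classical.epsilon fun z : J → Bool =>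
      (∀ ξ (h : ξ < β), z ξ = x ξ ∧ c s(ih ξ h, z) = c s(ih ξ h, x)) ∧ z β ≠ x β

theorem canon_eq (c : Sym2 (J → Bool) → J) (x : J → Bool) (β : J) :
    canon c x β = Classical.epsilon fun z : J → Bool =>
      (∀ ξ < β, z ξ = x ξ ∧ c s(canon c x ξ, z) = c s(canon c x ξ, x)) ∧ z β ≠ x β := by
  unfold canon
  rw [WellFounded.fix_eq]

theorem canon_congr (c : Sym2 (J → Bool) → J) (x x' : J → Bool) (β : J)
    (h : ∀ ξ < β, x ξ = x' ξ ∧ c s(canon c x ξ, x) = c s(canon c x' ξ, x')) :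
    ∀ ξ < β, canon c x ξ = canon c x' ξ := by
  intro ξ
  induction ξ using WellFoundedLT.induction with
  | ind ξ ih =>
    intro hξ
    rw [canon_eq c x ξ, canon_eq c x' ξ]
    congr 1
    funext z
    rw [(h ξ hξ).1]
    congr 1
    refine propext (forall_congr' fun ζ => forall_congr' fun hζ => ?_)
    rw [(h ζ (hζ.trans hξ)).2, (h ζ (hζ.trans hξ)).1, ih ζ hζ (hζ.trans hξ)]

theorem core (hJ : ℵ₀ < cof J) (hI : ∀ b : J, #(Iio b) < cof J)
    {m : Cardinal.{u}} (hm : ℵ₀ ≤ m) (hmJ : m < cof J)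
    (hJm : #J ≤ 2 ^ m) (h2 : ∀ b : J, (2 : Cardinal.{u}) ^ #(Iio b) ≤ 2 ^ m)
    (hlt : (2 : Cardinal.{u}) ^ m < 2 ^ #J)
    (c : Sym2 (J → Bool) → J) (μ : J)
    (hc : ∀ x y δ, IsLeast {i | x i ≠ y i} δ → c s(x, y) < max δ μ) :
    ∃ Y : Set (J → Bool), cof J ≤ #Y ∧ ∃ γ, ∀ x ∈ Y, ∀ y ∈ Y, x ≠ y → c s(x, y) = γ := by
  classical
  have hne := nonempty_of_cof hJ
  let t : (J → Bool) → J → J := fun x ξ => c s(canon c x ξ, x)
  let F : J → (J → Bool × J) → Bool := fun β f =>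
    decide (∃ x' : J → Bool, (∀ ξ < β, (x' ξ, t x' ξ) = f ξ) ∧ x' β = true)
  have hF : ∀ β f f', (∀ ξ < β, f ξ = f' ξ) → F β f = F β f' := by
    intro β f f' h
    simp only [F, decide_eq_decide]
    refine exists_congr fun x' => and_congr_left fun _ => ?_
    exact forall_congr' fun ξ => forall_congr' fun hξ => by rw [h ξ hξ]
  have hinf : ℵ₀ ≤ (2 : Cardinal.{u}) ^ m := hm.trans (cantor _).le
  have hV : #(Bool × J) ≤ 2 ^ m := by
    have : #(Bool × J) = 2 * #J := by simp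
    rw [this]
    calc 2 * #J ≤ 2 ^ m * 2 ^ m := mul_le_mul' (natCast_le_aleph0.trans hinf) hJm
      _ = 2 ^ m := mul_eq_self hinf
  obtain ⟨x, hx⟩ := weak_diamond hJ hm hmJ hJm h2 hlt hV F hF
  let P : J → (J → Bool) → Prop := fun β z =>
    (∀ ξ < β, z ξ = x ξ ∧ c s(canon c x ξ, z) = c s(canon c x ξ, x)) ∧ z β ≠ x β
  have hS : IsStationary {β | ∃ z, P β z} := by
    refine (hx fun ξ => (x ξ, t x ξ)).mono fun β hβ => ?_
    simp only [ne_eq, mem_ofPred_eq] at hβ
    cases hxβ : x β with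
    | true =>
      exfalso
      apply hβ
      rw [hxβ]
      simp only [F, decide_eq_true_eq]
      exact ⟨x, fun _ _ => rfl, hxβ⟩
    | false =>
      rw [hxβ] at hβ
      simp only [F, decide_eq_false_iff_not, not_not] at hβ
      obtain ⟨x', h1, h3⟩ := hβ
      have h4 : ∀ ξ < β, x' ξ = x ξ ∧ c s(canon c x' ξ, x') = c s(canon c x ξ, x) :=
        fun ξ hξ => Prod.mk.inj (h1 ξ hξ)
      refine ⟨x', fun ξ hξ => ⟨(h4 ξ hξ).1, ?_⟩, by simp [h3, hxβ]⟩
      rw [← (h4 ξ hξ).2, canon_congr c x' x β h4 ξ hξ]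
  have hP : ∀ β, (∃ z, P β z) → P β (canon c x β) := by
    intro β hβ
    rw [canon_eq]
    exact Classical.epsilon_spec hβ
  have hS' := isStationary_inter_club hJ hS (isClub_Ici μ)
  obtain ⟨γ, hγ⟩ := fodor hJ hI hS' (t x) (by
    rintro β ⟨hβ, hμβ⟩
    have h1 := hP β hβ
    have h3 := hc (canon c x β) x β ⟨h1.2, fun i hi => by
      by_contra hlt'
      exact hi (h1.1 i (not_le.1 hlt')).1⟩
    rwa [max_eq_left hμβ] at h3)
  set T : Set J := {β ∈ {β | ∃ z, P β z} ∩ Ici μ | t x β = γ} with hT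
  have hlt' : ∀ a ∈ T, ∀ b ∈ T, a < b →
      canon c x a ≠ canon c x b ∧ c s(canon c x a, canon c x b) = γ := by
    intro a ha b hb hab
    have h1 := hP a ha.1.1
    have h3 := hP b hb.1.1
    refine ⟨fun h => h1.2 ?_, ?_⟩
    · rw [h]; exact (h3.1 a hab).1
    · rw [(h3.1 a hab).2]; exact ha.2
  have hinj : InjOn (canon c x) T := by
    intro a ha b hb hab
    rcases lt_trichotomy a b with h | h | h
    · exact ((hlt' a ha b hb h).1 hab).elim
    · exact h
    · exact ((hlt' b hb a ha h).1 hab.symm).elim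
  refine ⟨canon c x '' T, ?_, γ, ?_⟩
  · rw [mk_image_eq_of_injOn _ _ hinj]
    exact cof_le_mk_of_isStationary hγ
  · rintro _ ⟨a, ha, rfl⟩ _ ⟨b, hb, rfl⟩ hab
    rcases lt_trichotomy a b with h | h | h
    · exact (hlt' a ha b hb h).2
    · exact (hab (by rw [h])).elim
    · rw [Sym2.eq_swap]; exact (hlt' b hb a ha h).2

end core

/-- The least cardinal whose power exceeds `2 ^ m` is regular. -/
theorem cof_eq_of_least {m θ : Cardinal.{u}} (hm : ℵ₀ ≤ m)
    (hθ : (2 : Cardinal.{u}) ^ m < 2 ^ θ) (hmin : ∀ l < θ, (2 : Cardinal.{u}) ^ l ≤ 2 ^ m) :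
    cof θ.ord.ToType = θ := by
  have hmθ : m < θ := lt_of_not_ge fun h => hθ.not_ge (power_le_power_left two_ne_zero h)
  have hθm : θ ≤ 2 ^ m := le_of_not_gt fun h => (cantor _).not_ge (hmin _ h)
  have := noMaxOrder (hm.trans hmθ.le)
  refine le_antisymm (by simpa using cof_le_cardinalMk θ.ord.ToType) (le_of_not_gt fun hlt => ?_)
  obtain ⟨S, hS, hS'⟩ := exists_cof_eq θ.ord.ToType
  let W : Type u := m.out → Bool
  have hW : #W = 2 ^ m := by simp [W]
  have hWinf : ℵ₀ ≤ #W := by rw [hW]; exact hm.trans (cantor _).le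
  obtain ⟨code, hcode⟩ := exists_code (J := θ.ord.ToType) hWinf (by simpa [hW] using hθm)
    (fun b => by rw [hW]; exact two_pow_pow_le hm (hmin _ (mk_Iio_toType_ord_lt b)))
  have hinj : Function.Injective fun (h : θ.ord.ToType → W) (s : S) => code s h := by
    intro h h' hh
    funext ξ
    obtain ⟨a, ha⟩ := exists_gt ξ
    obtain ⟨b, hb, hab⟩ := hS a
    exact (hcode _ _ _ _ (congrFun hh ⟨b, hb⟩)).2 ξ (ha.trans_le hab)
  have h1 := mk_le_of_injective hinj
  have h3 : #(θ.ord.ToType → W) = #W ^ θ := by simp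
  have h4 : #(S → W) = #W ^ #S := by simp
  rw [h3, h4, hW] at h1
  have h5 := two_pow_pow_le hm (hmin #S (hS' ▸ hlt))
  have h6 : (2 : Cardinal.{u}) ^ θ ≤ (2 ^ m) ^ θ :=
    power_le_power_right (natCast_le_aleph0.trans (hW ▸ hWinf))
  exact hθ.not_ge (h6.trans (h1.trans h5))

theorem main (κ : Cardinal.{u}) (hκ : ℵ₀ < κ)
    (h2 : ∀ μ < κ, (2 : Cardinal.{u}) ^ μ < 2 ^ κ)
    (c : Sym2 (κ.ord.ToType → Bool) → κ.ord.ToType) (μ : κ.ord.ToType)
    (hc : ∀ (x y : κ.ord.ToType → Bool) (δ : κ.ord.ToType),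
      IsLeast {i | x i ≠ y i} δ → c s(x, y) < max δ μ)
    (ν : Cardinal.{u}) (hν : ν < κ) :
    ∃ Y : Set (κ.ord.ToType → Bool), ν < #Y ∧
      ∃ γ, ∀ x ∈ Y, ∀ y ∈ Y, x ≠ y → c s(x, y) = γ := by
  classical
  let m : Cardinal.{u} := max (max ν #(Iio μ)) ℵ₀
  have hm : ℵ₀ ≤ m := le_max_right _ _
  have hmκ : m < κ := max_lt (max_lt hν (mk_Iio_toType_ord_lt μ)) hκ
  have hne : {l : Cardinal.{u} | (2 : Cardinal.{u}) ^ m < 2 ^ l}.Nonempty := ⟨κ, h2 m hmκ⟩
  let θ : Cardinal.{u} := wellFounded_lt.min _ hne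
  have hθ : (2 : Cardinal.{u}) ^ m < 2 ^ θ := wellFounded_lt.min_mem _ hne
  have hmin : ∀ l < θ, (2 : Cardinal.{u}) ^ l ≤ 2 ^ m := fun l hl =>
    le_of_not_gt fun h => hl.not_ge
      (wellFounded_lt.min_le (show l ∈ {l : Cardinal.{u} | (2 : Cardinal.{u}) ^ m < 2 ^ l} from h))
  have hθκ : θ ≤ κ :=
    wellFounded_lt.min_le (show κ ∈ {l : Cardinal.{u} | (2 : Cardinal.{u}) ^ m < 2 ^ l}
      from h2 m hmκ)
  have hmθ : m < θ := lt_of_not_ge fun h => hθ.not_ge (power_le_power_left two_ne_zero h)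
  have hθm : θ ≤ 2 ^ m := le_of_not_gt fun h => (cantor _).not_ge (hmin _ h)
  have hcof := cof_eq_of_least hm hθ hmin
  let e : θ.ord.ToType ≤i κ.ord.ToType := Ordinal.initialSegToType (ord_le_ord.2 hθκ)
  have he : StrictMono e := e.strictMono
  have hμ : ∃ μ', e μ' = μ := by
    by_contra hcon
    have h1 : ∀ j, e j < μ := fun j => lt_of_not_ge fun h => hcon (e.mem_range_of_le h)
    have h3 : #θ.ord.ToType ≤ #(Iio μ) :=
      mk_le_of_injective (f := fun j => (⟨e j, h1 j⟩ : Iio μ))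
        fun a b hab => he.injective (congrArg Subtype.val hab)
    rw [mk_ord_toType] at h3
    exact hmθ.not_ge (h3.trans ((le_max_right _ _).trans (le_max_left _ _)))
  obtain ⟨μ', hμ'⟩ := hμ
  let ext : (θ.ord.ToType → Bool) → κ.ord.ToType → Bool :=
    fun x => Function.extend e x fun _ => false
  have hext : ∀ x j, ext x (e j) = x j := fun x j => he.injective.extend_apply x _ j
  have hext' : ∀ x i, (¬ ∃ j, e j = i) → ext x i = false := fun x i hi =>
    Function.extend_apply' x _ i hi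
  have hextinj : Function.Injective ext := by
    intro x y h
    funext j
    rw [← hext x j, h, hext]
  have : Nonempty θ.ord.ToType := ⟨μ'⟩
  let r : κ.ord.ToType → θ.ord.ToType := Function.invFun e
  let c' : Sym2 (θ.ord.ToType → Bool) → θ.ord.ToType := fun s => r (c (s.map ext))
  have hkey : ∀ x y δ, IsLeast {i | x i ≠ y i} δ →
      c s(ext x, ext y) < e (max δ μ') ∧ e (c' s(x, y)) = c s(ext x, ext y) := by
    intro x y δ hδ
    have h1 : IsLeast {i | ext x i ≠ ext y i} (e δ) := by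
      refine ⟨?_, fun i hi => ?_⟩
      · simp only [mem_ofPred_eq, hext]
        exact hδ.1
      · by_cases h : ∃ j, e j = i
        · obtain ⟨j, rfl⟩ := h
          simp only [mem_ofPred_eq, hext] at hi
          exact he.monotone (hδ.2 hi)
        · exact (hi (by rw [hext' x i h, hext' y i h])).elim
    have h3 := hc _ _ _ h1
    rw [← hμ', ← he.monotone.map_max] at h3
    exact ⟨h3, Function.invFun_eq (e.mem_range_of_le h3.le)⟩
  obtain ⟨Y, hY, γ, hγ⟩ := core (J := θ.ord.ToType) (by rw [hcof]; exact hm.trans_lt hmθ)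
    (fun b => by rw [hcof]; exact mk_Iio_toType_ord_lt b) hm (by rw [hcof]; exact hmθ)
    (by rw [mk_ord_toType]; exact hθm) (fun b => hmin _ (mk_Iio_toType_ord_lt b))
    (by rw [mk_ord_toType]; exact hθ) c' μ' (fun x y δ hδ => by
      obtain ⟨h1, h3⟩ := hkey x y δ hδ
      rw [← h3] at h1
      exact he.lt_iff_lt.1 h1)
  refine ⟨ext '' Y, ?_, e γ, ?_⟩
  · rw [mk_image_eq hextinj]
    rw [hcof] at hY
    exact (((le_max_left _ _).trans (le_max_left _ _)).trans_lt hmθ).trans_le hY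
  · rintro _ ⟨x, hx, rfl⟩ _ ⟨y, hy, rfl⟩ hxy
    have hxy' : x ≠ y := fun h => hxy (by rw [h])
    have hne' : {i | x i ≠ y i}.Nonempty := Function.ne_iff.1 hxy'
    have hl : IsLeast {i | x i ≠ y i} (wellFounded_lt.min _ hne') :=
      ⟨wellFounded_lt.min_mem _ hne', fun i hi => wellFounded_lt.min_le hi⟩
    rw [← (hkey x y _ hl).2, hγ x hx y hy hxy']

end Pool.Agent.MP_9a42a6_lc

end
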